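import Mathlib

namespace Pool.Agent.Results.MP_4e7634_nt.BinSubsequence

open Classical in
/-- The number of partitions of `n` all of whose parts are powers of `2`. -/
noncomputable def bin (n : ℕ) : ℕ :=
  (Nat.Partition.restricted n (fun i => ∃ k : ℕ, i = 2 ^ k)).card

/-- The value at an integer index `m` of the sequence `w`, read as `c` when `m < 0`. -/
def ext (w : ℕ → ℕ) (c : ℕ) (m : ℤ) : ℕ := if m < 0 then c else w m.toNat

/-- `w` is a sequence of positive integers which, from some index `k` on and with every term of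
negative index read as the constant `c`, satisfies
`w n = ∑ i, w (n - w (n - u i)) + ∑ j, w (n - v j)`. -/
def IsSolution (p q : ℕ) (u : Fin p → ℕ) (v : Fin q → ℕ) (w : ℕ → ℕ) : Prop :=
  (∀ n, 0 < w n) ∧ ∃ k c : ℕ, ∀ n ≥ k,
    w n = ∑ i, ext w c ((n : ℤ) - (ext w c ((n : ℤ) - (u i : ℤ)) : ℤ))
      + ∑ j, ext w c ((n : ℤ) - (v j : ℤ))

/-- Multisets of powers of two with sum `n`. -/
def S (n : ℕ) : Set (Multiset ℕ) := {s | (∀ i ∈ s, ∃ k : ℕ, i = 2 ^ k) ∧ s.sum = n}

lemma finite_and_ncard (n : ℕ) : (S n).Finite ∧ (S n).ncard = bin n := by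
  classical
  have h : S n = ((Nat.Partition.restricted n (fun i => ∃ k : ℕ, i = 2 ^ k)).image
      Nat.Partition.parts : Finset (Multiset ℕ)) := by
    ext s
    simp only [S, Set.mem_ofPred_eq, Finset.coe_image, Set.mem_image, Finset.mem_coe,
      Nat.Partition.restricted, Finset.mem_filter, Finset.mem_univ, true_and]
    constructor
    · rintro ⟨h1, h2⟩
      refine ⟨⟨s, ?_, h2⟩, h1, rfl⟩
      intro i hi
      obtain ⟨k, rfl⟩ := h1 i hi
      positivity
    · rintro ⟨p, hp, rfl⟩
      exact ⟨hp, p.parts_sum⟩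
  refine ⟨by rw [h]; exact Finset.finite_toSet _, ?_⟩
  have hinj : Function.Injective (Nat.Partition.parts (n := n)) := fun a b hab =>
    Nat.Partition.ext hab
  rw [h, Set.ncard_coe_finset, Finset.card_image_of_injective _ hinj, bin]

/-- halving map -/
def dbl (e : ℕ) (s : Multiset ℕ) : Multiset ℕ := s.map (2 * ·) + Multiset.replicate e 1

lemma S_succ_succ (n : ℕ) :
    S (n + 2) = (fun s => 1 ::ₘ 1 ::ₘ s) '' S n ∪ dbl ((n + 2) % 2) '' S ((n + 2) / 2) := by
  ext s
  constructor
  · rintro ⟨h1, h2⟩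
    by_cases hc : 2 ≤ s.count 1
    · left
      obtain ⟨t, ht⟩ := Multiset.le_iff_exists_add.1 (Multiset.le_count_iff_replicate_le.1 hc)
      refine ⟨t, ⟨fun i hi => h1 i (by rw [ht]; exact Multiset.mem_add.2 (Or.inr hi)), ?_⟩, ?_⟩
      · rw [ht] at h2
        simp at h2
        omega
      · rw [ht]
        simp [Multiset.replicate_succ]
    · right
      push Not at hc
      -- the part of s different from 1
      set t := s.filter (fun i => i ≠ 1) with ht
      have hs : s = t + Multiset.replicate (s.count 1) 1 := by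
        conv_lhs => rw [← Multiset.filter_add_not (fun i => i ≠ 1) s]
        congr 1
        simp only [not_not]
        exact Multiset.filter_eq' s 1
      have hteven : ∀ i ∈ t, ∃ k : ℕ, i = 2 * 2 ^ k := by
        intro i hi
        rw [ht, Multiset.mem_filter] at hi
        obtain ⟨k, hk⟩ := h1 i hi.1
        cases k with
        | zero => simp at hk; exact absurd hk hi.2
        | succ k => exact ⟨k, by rw [hk]; ring⟩
      have htt : (t.map (· / 2)).map (2 * ·) = t := by
        rw [Multiset.map_map]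
        conv_rhs => rw [← Multiset.map_id t]
        apply Multiset.map_congr rfl
        intro i hi
        obtain ⟨k, hk⟩ := hteven i hi
        simp only [Function.comp, id]
        omega
      have hsum : t.sum = 2 * (t.map (· / 2)).sum := by
        conv_lhs => rw [← htt]
        rw [Multiset.sum_map_mul_left]
        simp
      have hs2 : s.sum = t.sum + s.count 1 := by
        conv_lhs => rw [hs]
        simp
      refine ⟨t.map (· / 2), ⟨?_, ?_⟩, ?_⟩
      · intro i hi
        rw [Multiset.mem_map] at hi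
        obtain ⟨j, hj, rfl⟩ := hi
        obtain ⟨k, hk⟩ := hteven j hj
        exact ⟨k, by omega⟩
      · omega
      · unfold dbl
        rw [htt]
        have : (n + 2) % 2 = s.count 1 := by omega
        rw [this, ← hs]
  · rintro (⟨t, ⟨h1, h2⟩, rfl⟩ | ⟨t, ⟨h1, h2⟩, rfl⟩)
    · refine ⟨?_, ?_⟩
      · intro i hi
        simp only [Multiset.mem_cons] at hi
        rcases hi with rfl | rfl | hi
        · exact ⟨0, rfl⟩
        · exact ⟨0, rfl⟩
        · exact h1 i hi
      · simp only [Multiset.sum_cons, h2]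
        omega
    · refine ⟨?_, ?_⟩
      · intro i hi
        unfold dbl at hi
        rw [Multiset.mem_add] at hi
        rcases hi with hi | hi
        · rw [Multiset.mem_map] at hi
          obtain ⟨j, hj, rfl⟩ := hi
          obtain ⟨k, rfl⟩ := h1 j hj
          exact ⟨k + 1, by ring⟩
        · exact ⟨0, by simpa using Multiset.eq_of_mem_replicate hi⟩
      · unfold dbl
        rw [Multiset.sum_add, Multiset.sum_map_mul_left]
        simp [h2]
        omega

lemma bin_succ_succ (n : ℕ) : bin (n + 2) = bin n + bin ((n + 2) / 2) := by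
  have hd : Disjoint ((fun s => 1 ::ₘ 1 ::ₘ s) '' S n) (dbl ((n + 2) % 2) '' S ((n + 2) / 2)) := by
    rw [Set.disjoint_left]
    rintro _ ⟨s, -, rfl⟩ ⟨t, ⟨h1, h2⟩, h3⟩
    have h4 := congrArg (Multiset.count 1) h3
    unfold dbl at h4
    have h5 : (t.map (2 * ·)).count 1 = 0 := by
      rw [Multiset.count_eq_zero]
      intro hmem
      rw [Multiset.mem_map] at hmem
      obtain ⟨j, -, hj⟩ := hmem
      omega
    rw [Multiset.count_add, h5] at h4
    simp at h4
    omega
  rw [← (finite_and_ncard (n + 2)).2, S_succ_succ, Set.ncard_union_eq hd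
    ((finite_and_ncard _).1.image _) ((finite_and_ncard _).1.image _),
    Set.ncard_image_of_injective, Set.ncard_image_of_injective, (finite_and_ncard n).2,
    (finite_and_ncard _).2]
  · intro a b hab
    unfold dbl at hab
    rw [add_left_inj] at hab
    exact Multiset.map_injective (fun x y h => by simpa using h) hab
  · intro a b hab
    simpa using hab

lemma bin_zero : bin 0 = 1 := by
  rw [← (finite_and_ncard 0).2]
  have : S 0 = {0} := by
    ext s
    simp only [S, Set.mem_ofPred_eq, Set.mem_singleton_iff]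
    constructor
    · rintro ⟨h1, h2⟩
      by_contra hne
      obtain ⟨i, hi⟩ := Multiset.exists_mem_of_ne_zero hne
      obtain ⟨k, hk⟩ := h1 i hi
      have := Multiset.single_le_sum (fun x _ => Nat.zero_le x) i hi
      have : 0 < 2 ^ k := by positivity
      omega
    · rintro rfl
      simp
  rw [this, Set.ncard_singleton]

lemma bin_one : bin 1 = 1 := by
  rw [← (finite_and_ncard 1).2]
  have : S 1 = {{1}} := by
    ext s
    simp only [S, Set.mem_ofPred_eq, Set.mem_singleton_iff]
    constructor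
    · rintro ⟨h1, h2⟩
      have hne : s ≠ 0 := by rintro rfl; simp at h2
      obtain ⟨i, hi⟩ := Multiset.exists_mem_of_ne_zero hne
      obtain ⟨t, rfl⟩ := Multiset.exists_cons_of_mem hi
      obtain ⟨k, hk⟩ := h1 i hi
      have hpos : 0 < 2 ^ k := by positivity
      rw [Multiset.sum_cons] at h2
      have hi1 : i = 1 := by omega
      have ht0 : t.sum = 0 := by omega
      have ht : t = 0 := by
        by_contra hne
        obtain ⟨j, hj⟩ := Multiset.exists_mem_of_ne_zero hne
        obtain ⟨k, hk⟩ := h1 j (Multiset.mem_cons_of_mem hj)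
        have := Multiset.single_le_sum (fun x _ => Nat.zero_le x) j hj
        have : 0 < 2 ^ k := by positivity
        omega
      rw [hi1, ht]; rfl
    · rintro rfl
      refine ⟨?_, by simp⟩
      intro i hi
      exact ⟨0, by simpa using hi⟩
  rw [this, Set.ncard_singleton]

lemma bin_pos (n : ℕ) : 0 < bin n := by
  induction n using Nat.strong_induction_on with
  | _ n ih =>
    match n with
    | 0 => rw [bin_zero]; norm_num
    | 1 => rw [bin_one]; norm_num
    | n + 2 => rw [bin_succ_succ]; have := ih n (by omega); omega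

lemma bin_mono2 (n : ℕ) (h : 4 ≤ n) : 4 ≤ bin n := by
  induction n using Nat.strong_induction_on with
  | _ n ih =>
    have e2 : bin 2 = 2 := by rw [bin_succ_succ 0, bin_zero, bin_one]
    have e3 : bin 3 = 2 := by rw [bin_succ_succ 1, bin_one]
    match n, h with
    | 4, _ => rw [bin_succ_succ 2, e2]
    | 5, _ => rw [bin_succ_succ 3, e3, e2]
    | n + 6, _ =>
      rw [bin_succ_succ]
      have := ih (n + 4) (by omega) (by omega)
      omega

/-- `bin n` beats `2 n + 1` from `16` on. -/
lemma bin_large (n : ℕ) (h : 16 ≤ n) : 2 * n + 1 < bin n := by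
  have b0 := bin_zero
  have b1 := bin_one
  have b2 : bin 2 = 2 := by rw [bin_succ_succ 0, b0, b1]
  have b3 : bin 3 = 2 := by rw [bin_succ_succ 1, b1]
  have b4 : bin 4 = 4 := by rw [bin_succ_succ 2, b2]
  have b5 : bin 5 = 4 := by rw [bin_succ_succ 3, b3, b2]
  have b6 : bin 6 = 6 := by rw [bin_succ_succ 4, b4, b3]
  have b7 : bin 7 = 6 := by rw [bin_succ_succ 5, b5, b3]
  have b8 : bin 8 = 10 := by rw [bin_succ_succ 6, b6, b4]
  have b9 : bin 9 = 10 := by rw [bin_succ_succ 7, b7, b4]
  have b10 : bin 10 = 14 := by rw [bin_succ_succ 8, b8, b5]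
  have b11 : bin 11 = 14 := by rw [bin_succ_succ 9, b9, b5]
  have b12 : bin 12 = 20 := by rw [bin_succ_succ 10, b10, b6]
  have b13 : bin 13 = 20 := by rw [bin_succ_succ 11, b11, b6]
  have b14 : bin 14 = 26 := by rw [bin_succ_succ 12, b12, b7]
  have b15 : bin 15 = 26 := by rw [bin_succ_succ 13, b13, b7]
  have b16 : bin 16 = 36 := by rw [bin_succ_succ 14, b14, b8]
  have b17 : bin 17 = 36 := by rw [bin_succ_succ 15, b15, b8]
  induction n using Nat.strong_induction_on with
  | _ n ih =>
    by_cases h18 : n < 18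
    · interval_cases n
      · rw [b16]; norm_num
      · rw [b17]; norm_num
    · obtain ⟨m, rfl⟩ : ∃ m, n = m + 2 := ⟨n - 2, by omega⟩
      rw [bin_succ_succ]
      have h1 := ih m (by omega) (by omega)
      have h2 := bin_mono2 ((m + 2) / 2) (by omega)
      omega

/-- The solution: `bin` on even indices, a pointer on odd indices. -/
noncomputable def w (m : ℕ) : ℕ := if m % 2 = 0 then bin (m / 2) else 2 * ((m + 3) / 4)

lemma w_even (n : ℕ) : w (2 * n) = bin n := by
  unfold w
  rw [if_pos (by omega)]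
  congr 1
  omega

lemma w_odd (n : ℕ) : w (2 * n + 1) = 2 * ((n + 2) / 2) := by
  unfold w
  rw [if_neg (by omega)]
  congr 1
  omega

lemma w_pos (n : ℕ) : 0 < w n := by
  rcases Nat.even_or_odd' n with ⟨m, rfl | rfl⟩
  · rw [w_even]; exact bin_pos m
  · rw [w_odd]; omega

/-- There are a nested recurrence `w n = ∑ i, w (n - w (n - u i)) + ∑ j, w (n - v j)` with positive
shifts, a solution `w` of it and an arithmetic progression along which `w` is the binary
partition sequence. -/
theorem result :
    ∃ (p q : ℕ) (u : Fin p → ℕ) (v : Fin q → ℕ) (w : ℕ → ℕ),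
      (∀ i, 0 < u i) ∧ (∀ j, 0 < v j) ∧ IsSolution p q u v w ∧
      ∃ a b : ℕ, 1 ≤ a ∧ ∀ n, w (a * n + b) = bin n := by
  refine ⟨1, 1, fun _ => 1, fun _ => 4, w, by simp, by simp, ⟨w_pos, 40, 2, ?_⟩, 2, 0, by norm_num,
    fun n => w_even n⟩
  intro n hn
  simp only [Finset.univ_unique, Fin.default_eq_zero, Finset.sum_singleton]
  rcases Nat.even_or_odd' n with ⟨m, rfl | rfl⟩
  · -- even index `2 m`
    obtain ⟨l, rfl⟩ : ∃ l, m = l + 2 := ⟨m - 2, by omega⟩
    have e1 : ext w 2 (((2 * (l + 2) : ℕ) : ℤ) - ((1 : ℕ) : ℤ)) = 2 * ((l + 3) / 2) := by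
      unfold ext
      rw [if_neg (by push_cast; omega)]
      have : (((2 * (l + 2) : ℕ) : ℤ) - ((1 : ℕ) : ℤ)).toNat = 2 * (l + 1) + 1 := by omega
      rw [this, w_odd]
    have e2 : ext w 2 (((2 * (l + 2) : ℕ) : ℤ) - ((4 : ℕ) : ℤ)) = bin l := by
      unfold ext
      rw [if_neg (by push_cast; omega)]
      have : (((2 * (l + 2) : ℕ) : ℤ) - ((4 : ℕ) : ℤ)).toNat = 2 * l := by omega
      rw [this, w_even]
    have e3 : ext w 2 (((2 * (l + 2) : ℕ) : ℤ) - ((2 * ((l + 3) / 2) : ℕ) : ℤ))
        = bin ((l + 2) / 2) := by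
      unfold ext
      rw [if_neg (by push_cast; omega)]
      have : (((2 * (l + 2) : ℕ) : ℤ) - ((2 * ((l + 3) / 2) : ℕ) : ℤ)).toNat
          = 2 * ((l + 2) / 2) := by omega
      rw [this, w_even]
    rw [e1, e2, e3, w_even, bin_succ_succ]
    omega
  · -- odd index `2 m + 1`
    obtain ⟨l, rfl⟩ : ∃ l, m = l + 2 := ⟨m - 2, by omega⟩
    have e1 : ext w 2 (((2 * (l + 2) + 1 : ℕ) : ℤ) - ((1 : ℕ) : ℤ)) = bin (l + 2) := by
      unfold ext
      rw [if_neg (by push_cast; omega)]
      have : (((2 * (l + 2) + 1 : ℕ) : ℤ) - ((1 : ℕ) : ℤ)).toNat = 2 * (l + 2) := by omega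
      rw [this, w_even]
    have e2 : ext w 2 (((2 * (l + 2) + 1 : ℕ) : ℤ) - ((4 : ℕ) : ℤ)) = 2 * ((l + 2) / 2) := by
      unfold ext
      rw [if_neg (by push_cast; omega)]
      have : (((2 * (l + 2) + 1 : ℕ) : ℤ) - ((4 : ℕ) : ℤ)).toNat = 2 * l + 1 := by omega
      rw [this, w_odd]
    have e3 : ext w 2 (((2 * (l + 2) + 1 : ℕ) : ℤ) - (bin (l + 2) : ℤ)) = 2 := by
      unfold ext
      have := bin_large (l + 2) (by omega)
      rw [if_pos (by push_cast; omega)]
    rw [e1, e2, e3, w_odd]
    omega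

end Pool.Agent.Results.MP_4e7634_nt.BinSubsequence
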